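import Pool.Agent.R515.NF.NonTriv2

/-!
# A measurably non-trivial smooth time change of a uniquely ergodic Heisenberg nilflow which is
not weakly mixing

`Heis` is the Heisenberg group (triples `(x, y, z)`, product
`(x,y,z)(x',y',z') = (x+x', y+y', z+z'+y x')`), `Γ` its subgroup of integer points,
`M = Heis ⧸ Γ` the Heisenberg nilmanifold, `pr : Heis → M` the projection,
`nilflow θ t (gΓ) = exp(tX) g Γ` with `exp(tX) = gt θ t = (tθ, t, t²θ/2)`, and `μH` the Haar
probability measure of `M` (all defined in `Pool.Agent.R515.NF.Heis`, `Pool.Agent.R515.NF.Tor`).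
-/

open MeasureTheory Topology Filter Set
open scoped ENNReal ContDiff

namespace Pool.Agent.Results.MP_442888_an.NotWeaklyMixing

open Pool.Agent.R515.NF Pool.Agent.R515.NF.Heis

/-- `ψ` is the time change of the flow `φ` given by `α > 0`, i.e. the flow generated by `X/α`:
`ψ_s(p) = φ_t(p)` for the `t` with `∫_0^t α(φ_r p) dr = s`. -/
def IsTimeChange (φ : ℝ → M → M) (α : M → ℝ) (ψ : ℝ → M → M) : Prop :=
  ∀ (s : ℝ) (p : M), ∃ t : ℝ, ψ s p = φ t p ∧ ∫ r in (0:ℝ)..t, α (φ r p) = s

/-- `α` is measurably cohomologous to a constant: `α - c = X u` with `u` measurable, that is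
`u(φ_t p) - u(p) = ∫_0^t (α - c)(φ_r p) dr` for every `t` and `μ`-almost every `p`. -/
def MeasurablyTrivial (μ : Measure M) (φ : ℝ → M → M) (α : M → ℝ) : Prop :=
  ∃ (c : ℝ) (u : M → ℝ), Measurable u ∧
    ∀ t : ℝ, ∀ᵐ p ∂μ, u (φ t p) - u p = ∫ r in (0:ℝ)..t, (α (φ r p) - c)

/-- The probability measure proportional to `α dμ`. -/
noncomputable def densityMeasure (μ : Measure M) (α : M → ℝ) : Measure M :=
  (∫⁻ p, ENNReal.ofReal (α p) ∂μ)⁻¹ • μ.withDensity (fun p => ENNReal.ofReal (α p))

/-- mixing: `ν(ψ_t A ∩ B) → ν(A) ν(B)` for all measurable `A`, `B` -/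
def Mixing (ν : Measure M) (ψ : ℝ → M → M) : Prop :=
  ∀ A B : Set M, MeasurableSet A → MeasurableSet B →
    Tendsto (fun t : ℝ => ν.real (ψ t '' A ∩ B)) atTop (𝓝 (ν.real A * ν.real B))

/-- weak mixing: `(1/t) ∫_0^t |ν(ψ_s A ∩ B) - ν(A) ν(B)| ds → 0` for all measurable `A`, `B` -/
def WeaklyMixing (ν : Measure M) (ψ : ℝ → M → M) : Prop :=
  ∀ A B : Set M, MeasurableSet A → MeasurableSet B →
    Tendsto (fun t : ℝ => (∫⁻ s in Ioc 0 t,
      ENNReal.ofReal |ν.real (ψ s '' A ∩ B) - ν.real A * ν.real B|) / ENNReal.ofReal t)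
      atTop (𝓝 0)

/-! ### existence of the time change -/

lemma cont_orbit (p : M) : Continuous (fun r : ℝ => al (nilflow th r p)) := by
  have h1 := cont_al
  have h2 := cont_gt th
  unfold nilflow
  fun_prop

lemma exists_time (s : ℝ) (p : M) : ∃ t : ℝ, ∫ r in (0:ℝ)..t, al (nilflow th r p) = s := by
  set T : ℝ → ℝ := fun t => ∫ r in (0:ℝ)..t, al (nilflow th r p) with hT
  have hc : Continuous T := intervalIntegral.continuous_primitive
    (fun a b => (cont_orbit p).intervalIntegrable a b) 0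
  have hmono : ∀ x y, x ≤ y → (1/2) * (y - x) ≤ T y - T x := by
    intro x y hxy
    have h1 : T y - T x = ∫ r in x..y, al (nilflow th r p) := by
      simp only [hT]
      rw [intervalIntegral.integral_interval_sub_left] <;>
        exact (cont_orbit p).intervalIntegrable _ _
    rw [h1]
    have h2 : ∫ r in x..y, (1/2 : ℝ) ≤ ∫ r in x..y, al (nilflow th r p) :=
      intervalIntegral.integral_mono_on hxy (by simp) ((cont_orbit p).intervalIntegrable _ _)
        (fun r _ => al_lower _)
    simpa [mul_comm] using h2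
  have h0 : T 0 = 0 := by simp [hT]
  have htop : Tendsto T atTop atTop := by
    refine tendsto_atTop_mono' atTop (f₁ := fun t : ℝ => (1/2:ℝ) * t) ?_
      (tendsto_id.const_mul_atTop (by norm_num))
    filter_upwards [eventually_ge_atTop 0] with t ht
    have := hmono 0 t ht
    rw [h0] at this; linarith
  have hbot : Tendsto T atBot atBot := by
    have hb0 : Tendsto (fun t : ℝ => (1/2:ℝ) * t) atBot atBot :=
      Tendsto.const_mul_atBot (by norm_num) tendsto_id
    refine tendsto_atBot_mono' atBot ?_ hb0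
    filter_upwards [eventually_le_atBot 0] with t ht
    have := hmono t 0 ht
    rw [h0] at this; linarith
  exact hc.surjective htop hbot s

lemma FF_timeChange {ψ : ℝ → M → M} (hψ : IsTimeChange (nilflow th) al ψ) (s : ℝ) (p : M) :
    FF (ψ s p) = FF p * ee s := by
  obtain ⟨t, h1, h2⟩ := hψ s p
  rw [h1, FF_flow, h2]

/-! ### quadrants -/

/-- the four half open quadrants -/
def Q : Fin 4 → Set ℂ
  | 0 => {z | 0 < z.re ∧ 0 ≤ z.im}
  | 1 => {z | z.re ≤ 0 ∧ 0 < z.im}
  | 2 => {z | z.re < 0 ∧ z.im ≤ 0}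
  | 3 => {z | 0 ≤ z.re ∧ z.im < 0}

lemma measurableSet_Q (j : Fin 4) : MeasurableSet (Q j) := by
  have hr := Complex.measurable_re
  have hi := Complex.measurable_im
  fin_cases j
  · exact (measurableSet_lt measurable_const hr).inter (measurableSet_le measurable_const hi)
  · exact (measurableSet_le hr measurable_const).inter (measurableSet_lt measurable_const hi)
  · exact (measurableSet_lt hr measurable_const).inter (measurableSet_le hi measurable_const)
  · exact (measurableSet_le measurable_const hr).inter (measurableSet_lt hi measurable_const)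

lemma Q_cover {z : ℂ} (hz : z ≠ 0) : ∃ j, z ∈ Q j := by
  rcases lt_trichotomy z.re 0 with h1 | h1 | h1 <;> rcases lt_trichotomy z.im 0 with h2 | h2 | h2
  · exact ⟨2, h1, h2.le⟩
  · exact ⟨2, h1, h2.le⟩
  · exact ⟨1, h1.le, h2⟩
  · exact ⟨3, h1.ge, h2⟩
  · exact absurd (Complex.ext (by simpa using h1) (by simpa using h2)) hz
  · exact ⟨1, h1.le, h2⟩
  · exact ⟨3, h1.le, h2⟩
  · exact ⟨0, h1, h2.ge⟩
  · exact ⟨0, h1, h2.le⟩

lemma Q_pos {j : Fin 4} {z w : ℂ} (hz : z ∈ Q j) (hw : w ∈ Q j) :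
    0 < w.re * z.re + w.im * z.im := by
  fin_cases j
  · obtain ⟨a1, a2⟩ := hz; obtain ⟨b1, b2⟩ := hw
    have := mul_pos b1 a1; have := mul_nonneg b2 a2; linarith
  · obtain ⟨a1, a2⟩ := hz; obtain ⟨b1, b2⟩ := hw
    have := mul_nonneg_of_nonpos_of_nonpos b1 a1; have := mul_pos b2 a2; linarith
  · obtain ⟨a1, a2⟩ := hz; obtain ⟨b1, b2⟩ := hw
    have := mul_pos_of_neg_of_neg b1 a1
    have := mul_nonneg_of_nonpos_of_nonpos b2 a2; linarith
  · obtain ⟨a1, a2⟩ := hz; obtain ⟨b1, b2⟩ := hw
    have := mul_nonneg b1 a1; have := mul_pos_of_neg_of_neg b2 a2; linarith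

lemma ee_re (s : ℝ) : (ee s).re = Real.cos (2 * Real.pi * s) := by
  unfold ee
  rw [show 2 * Real.pi * Complex.I * (s : ℂ) = ((2 * Real.pi * s : ℝ) : ℂ) * Complex.I by
    push_cast; ring, Complex.exp_ofReal_mul_I_re]

/-- the sets `A_j` -/
def AQ (j : Fin 4) : Set M := FF ⁻¹' (Q j)

lemma measurableSet_AQ (j : Fin 4) : MeasurableSet (AQ j) := measurable_FF (measurableSet_Q j)

lemma inter_empty {ψ : ℝ → M → M} (hψ : IsTimeChange (nilflow th) al ψ) (j : Fin 4) {s : ℝ}
    (hs : Real.cos (2 * Real.pi * s) ≤ 0) : ψ s '' AQ j ∩ AQ j = ∅ := by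
  rw [Set.eq_empty_iff_forall_notMem]
  rintro _ ⟨⟨p, hp, rfl⟩, hq⟩
  have h1 : 0 < (FF (ψ s p)).re * (FF p).re + (FF (ψ s p)).im * (FF p).im := Q_pos hp hq
  rw [FF_timeChange hψ, Complex.mul_re, Complex.mul_im, ee_re] at h1
  have h2 : ((FF p).re * Real.cos (2 * Real.pi * s) - (FF p).im * (ee s).im) * (FF p).re
      + ((FF p).re * (ee s).im + (FF p).im * Real.cos (2 * Real.pi * s)) * (FF p).im
      = Real.cos (2 * Real.pi * s) * ((FF p).re ^ 2 + (FF p).im ^ 2) := by ring
  rw [h2] at h1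
  have h3 : 0 ≤ (FF p).re ^ 2 + (FF p).im ^ 2 := by positivity
  nlinarith

lemma Z_pos : ∫⁻ p, ENNReal.ofReal (al p) ∂μH ≠ ⊤ := by
  have h : ∫⁻ p, ENNReal.ofReal (al p) ∂μH ≤ ∫⁻ _ : M, ENNReal.ofReal 2 ∂μH :=
    lintegral_mono fun p => ENNReal.ofReal_le_ofReal (al_upper p)
  simp only [lintegral_const, measure_univ, mul_one] at h
  exact ne_top_of_le_ne_top ENNReal.ofReal_ne_top h

lemma exists_pos : ∃ j, 0 < (densityMeasure μH al).real (AQ j) := by
  have hfin : ∀ S, (densityMeasure μH al) S ≠ ⊤ := by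
    intro S
    unfold densityMeasure
    rw [Measure.smul_apply, smul_eq_mul]
    apply ENNReal.mul_ne_top
    · rw [ENNReal.inv_ne_top]
      have h : ∫⁻ _ : M, ENNReal.ofReal (1/2) ∂μH ≤ ∫⁻ p, ENNReal.ofReal (al p) ∂μH :=
        lintegral_mono fun p => ENNReal.ofReal_le_ofReal (al_lower p)
      simp only [lintegral_const, measure_univ, mul_one] at h
      have h2 : (0:ℝ≥0∞) < ENNReal.ofReal (1/2) := by simp
      exact (h2.trans_le h).ne'
    · have h1 : (μH.withDensity fun p => ENNReal.ofReal (al p)) S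
          ≤ (μH.withDensity fun p => ENNReal.ofReal (al p)) univ := measure_mono (subset_univ _)
      refine ne_top_of_le_ne_top ?_ h1
      rw [withDensity_apply _ MeasurableSet.univ, Measure.restrict_univ]
      exact Z_pos
  by_contra hcon
  push Not at hcon
  have h0 : ∀ j, μH (AQ j) = 0 := by
    intro j
    have h1 : (densityMeasure μH al) (AQ j) = 0 := by
      have h2 : (densityMeasure μH al).real (AQ j) = 0 := le_antisymm (hcon j) measureReal_nonneg
      rw [Measure.real, ENNReal.toReal_eq_zero_iff] at h2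
      exact h2.resolve_right (hfin _)
    unfold densityMeasure at h1
    rw [Measure.smul_apply, smul_eq_mul, mul_eq_zero] at h1
    have h3 : (μH.withDensity fun p => ENNReal.ofReal (al p)) (AQ j) = 0 :=
      h1.resolve_left (ENNReal.inv_ne_zero.mpr Z_pos)
    have hmeas : Measurable (fun p => ENNReal.ofReal (al p)) :=
      ENNReal.measurable_ofReal.comp cont_al.measurable
    rw [withDensity_apply_eq_zero hmeas] at h3
    have h4 : {x | ENNReal.ofReal (al x) ≠ 0} ∩ AQ j = AQ j := by
      rw [Set.inter_eq_right]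
      intro p _
      have := al_lower p
      simp only [Set.mem_ofPred_eq, ne_eq, ENNReal.ofReal_eq_zero, not_le]
      linarith
    rwa [h4] at h3
  have h1 : μH (⋃ j, AQ j) = 0 := measure_iUnion_null h0
  have h2 : Good ⊆ ⋃ j, AQ j := by
    intro p hp
    have hne : FF p ≠ 0 := by
      intro h
      have := norm_FF_good hp
      rw [h, norm_zero] at this
      exact zero_ne_one this
    obtain ⟨j, hj⟩ := Q_cover hne
    exact Set.mem_iUnion.mpr ⟨j, hj⟩
  have h3 : μH Good = 0 := measure_mono_null h2 h1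
  have h4 : μH Goodᶜ = 0 := by
    have := ae_good
    rwa [ae_iff] at this
  have h5 : μH univ = 0 := by
    rw [← Set.union_compl_self Good]
    exact measure_union_null h3 h4
  rw [measure_univ] at h5
  exact one_ne_zero h5

lemma cos_neg {k : ℕ} {s : ℝ} (h1 : (k:ℝ) + 1/4 ≤ s) (h2 : s ≤ k + 3/4) :
    Real.cos (2 * Real.pi * s) ≤ 0 := by
  have h3 : 2 * Real.pi * s = 2 * Real.pi * (s - k) + (k : ℕ) * (2 * Real.pi) := by ring
  rw [h3, Real.cos_add_nat_mul_two_pi]
  apply Real.cos_nonpos_of_pi_div_two_le_of_le <;> nlinarith [Real.pi_pos]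

lemma lintegral_lower (f : ℝ → ℝ≥0∞) (c : ℝ≥0∞)
    (hf : ∀ k : ℕ, ∀ s : ℝ, (k:ℝ) + 1/4 ≤ s → s ≤ k + 3/4 → c ≤ f s) (N : ℕ) :
    N * (c * ENNReal.ofReal (1/2)) ≤ ∫⁻ s in Ioc (0:ℝ) N, f s := by
  induction N with
  | zero => simp
  | succ N ih =>
    have h1 : Ioc (0:ℝ) ((N + 1 : ℕ) : ℝ) = Ioc (0:ℝ) N ∪ Ioc (N:ℝ) ((N + 1 : ℕ) : ℝ) := by
      rw [Ioc_union_Ioc_eq_Ioc (by positivity) (by push_cast; linarith)]
    rw [h1, lintegral_union measurableSet_Ioc (by
      rw [Set.disjoint_left]
      intro x hx hx'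
      exact absurd hx.2 (not_le.mpr hx'.1))]
    have h2 : c * ENNReal.ofReal (1/2) ≤ ∫⁻ s in Ioc (N:ℝ) ((N + 1 : ℕ) : ℝ), f s := by
      calc c * ENNReal.ofReal (1/2) = ∫⁻ s in Icc ((N:ℝ) + 1/4) (N + 3/4), c := by
            rw [setLIntegral_const, Real.volume_Icc]
            congr 2; ring
        _ ≤ ∫⁻ s in Icc ((N:ℝ) + 1/4) (N + 3/4), f s := by
            apply setLIntegral_mono' measurableSet_Icc
            intro s hs
            exact hf N s hs.1 hs.2
        _ ≤ ∫⁻ s in Ioc (N:ℝ) ((N + 1 : ℕ) : ℝ), f s := by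
            apply lintegral_mono_set
            intro s hs
            constructor
            · linarith [hs.1]
            · push_cast; linarith [hs.2]
    have h3 : (((N + 1 : ℕ) : ℝ≥0∞)) = N + 1 := by push_cast; rfl
    rw [h3, add_mul, one_mul]
    exact add_le_add ih h2

/-- **Main theorem.** There are a Heisenberg nilflow which is parabolic (`X` is not central) and
uniquely ergodic, and a smooth positive function `α` on the nilmanifold which is measurably
non-trivial, such that the time change of the nilflow given by `α` exists and is neither weakly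
mixing nor mixing with respect to the invariant probability measure proportional to `α dμ`. -/
theorem result :
    ∃ θ : ℝ,
      (∃ g : Heis, gt θ 1 * g ≠ g * gt θ 1) ∧
      (∀ g : Heis, μH.map (fun p => g • p) = μH) ∧
      (∀ m : Measure M, IsProbabilityMeasure m → ((∀ t, m.map (nilflow θ t) = m) ↔ m = μH)) ∧
      ∃ α : M → ℝ,
        ContDiff ℝ ∞ (fun v : ℝ × ℝ × ℝ => α (pr (mk' v.1 v.2.1 v.2.2))) ∧
        (∀ p, 0 < α p) ∧
        ¬ MeasurablyTrivial μH (nilflow θ) α ∧
        (∃ ψ, IsTimeChange (nilflow θ) α ψ) ∧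
        ∀ ψ, IsTimeChange (nilflow θ) α ψ →
          ¬ WeaklyMixing (densityMeasure μH α) ψ ∧ ¬ Mixing (densityMeasure μH α) ψ := by
  refine ⟨th, ⟨mk' 1 0 0, ?_⟩, map_smul_μH, ?_, al, contDiff_al,
    fun p => lt_of_lt_of_le (by norm_num) (al_lower p), ?_, ?_, ?_⟩
  · intro h
    have h2 := congrArg (fun g : Heis => g.2.2) h
    simp only [gt, mul_22, mk'_22, mk'_21, mk'_1] at h2
    linarith
  · intro m hm
    constructor
    · intro h
      exact unique_ergodic irrational_th h
    · rintro rfl t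
      exact map_smul_μH _
  · rintro ⟨c, u, hu, h⟩
    exact not_trivial hu h
  · choose τ hτ using exists_time
    exact ⟨fun s p => nilflow th (τ s p) p, fun s p => ⟨τ s p, rfl, hτ s p⟩⟩
  · intro ψ hψ
    obtain ⟨j, hj⟩ := exists_pos
    set ν := densityMeasure μH al with hν
    have hA := measurableSet_AQ j
    have hempty : ∀ s, Real.cos (2 * Real.pi * s) ≤ 0 → ν.real (ψ s '' AQ j ∩ AQ j) = 0 := by
      intro s hs
      rw [inter_empty hψ j hs]; simp
    constructor
    · intro hWM
      have h1 := hWM (AQ j) (AQ j) hA hA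
      have h2 := h1.comp tendsto_natCast_atTop_atTop
      set c := ENNReal.ofReal (ν.real (AQ j) * ν.real (AQ j)) with hc
      have hc0 : 0 < c := by
        rw [hc, ENNReal.ofReal_pos]; positivity
      have h3 : ∀ᶠ N : ℕ in atTop, c * ENNReal.ofReal (1/2) ≤ (∫⁻ s in Ioc (0:ℝ) N,
          ENNReal.ofReal |ν.real (ψ s '' AQ j ∩ AQ j) - ν.real (AQ j) * ν.real (AQ j)|) /
          ENNReal.ofReal (N:ℝ) := by
        filter_upwards [eventually_gt_atTop 0] with N hN
        rw [ENNReal.ofReal_natCast, ENNReal.le_div_iff_mul_le (Or.inl (by exact_mod_cast hN.ne'))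
          (Or.inl (ENNReal.natCast_ne_top N)), mul_comm]
        apply lintegral_lower
        intro k s hs1 hs2
        rw [hempty s (cos_neg hs1 hs2), zero_sub, abs_neg, abs_of_nonneg (by positivity)]
      have h4 := ge_of_tendsto h2 h3
      have h5 : 0 < c * ENNReal.ofReal (1/2) :=
        ENNReal.mul_pos hc0.ne' (by simp)
      exact absurd h4 (not_le.mpr h5)
    · intro hM
      have h1 := hM (AQ j) (AQ j) hA hA
      have h2 : Tendsto (fun N : ℕ => (N:ℝ) + 1/2) atTop atTop :=
        tendsto_atTop_add_const_right _ _ tendsto_natCast_atTop_atTop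
      have h3 := h1.comp h2
      have h4 : ((fun t : ℝ => ν.real (ψ t '' AQ j ∩ AQ j)) ∘ fun N : ℕ => (N:ℝ) + 1/2)
          = fun _ => 0 := by
        funext N
        exact hempty _ (cos_neg (k := N) (by linarith) (by linarith))
      rw [h4] at h3
      have h5 := tendsto_nhds_unique h3 tendsto_const_nhds
      have h6 : 0 < ν.real (AQ j) * ν.real (AQ j) := by positivity
      linarith

end Pool.Agent.Results.MP_442888_an.NotWeaklyMixing
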